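import Pool.Agent.PQP.StmtsV
import Pool.Agent.Helper76_FLX.Moi

/-! Squad PQP, row COV (helper91): covariance of densities and solutions under Moebius maps. -/

set_option autoImplicit false

open scoped InnerProductSpace Topology ContDiff Manifold
open MeasureTheory Filter Set

noncomputable section

namespace Pool.Agent.PQP.H91

open Pool.Agent.Helper42_Paneitz Pool.Agent.Helper82_Vir Pool.Agent.FLX Pool.Agent.PQP
open Pool.Agent.FLX.H76

theorem cov (moa : MoaStmt) (mos : MosStmt) (mom : MomStmt) (ker : KerStmt) : CovStmt := by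
  intro b hb
  obtain ⟨a1, a2, a3, a4, a5, a6⟩ := moa b hb
  have hD : 0 < 1 - ‖b‖ ^ 2 := by
    have := norm_nonneg b
    nlinarith
  have hJ : ∀ x, 0 < Jac b x := fun x => by
    unfold Jac
    have := a1 x
    positivity
  -- continuity
  have hcb : Continuous (mob b) := by
    rw [continuous_iff_continuousAt]
    intro x
    have h1 := mos.1.comp_continuous (f := fun x : S4 => (b, x))
      (continuous_const.prodMk continuous_id) (fun x => hb)
    exact h1.continuousAt
  have hcJ : Continuous (Jac b) := by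
    unfold Jac
    refine Continuous.div continuous_const ?_ fun x => (pow_pos (a1 x) 4).ne'
    exact (continuous_const.add (continuous_const.inner continuous_subtype_val)).pow 4
  have hclog : Continuous fun y : S4 => Real.log (1 + ⟪b, (y : E5)⟫_ℝ) :=
    Continuous.log (continuous_const.add (continuous_const.inner continuous_subtype_val))
      fun x => (a1 x).ne'
  have hI := ker.1
  have hpc : ∀ f : S4 → ℝ, Continuous f → Continuous (pull b f) := fun f hf =>
    (hf.comp hcb).mul hcJ
  have hdens : ∀ f, Dens f → Dens (pull b f) := by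
    intro f hf
    refine ⟨hpc f hf.1, fun x => mul_pos (hf.2.1 _) (hJ x), ?_⟩
    have h1 := mom b hb f
    rw [hf.2.2] at h1
    exact h1
  -- the kernel
  have hell : ∀ x : S4, ∀ᵐ y ∂sig, ell (mob b x) (mob b y) =
      ell x y + (-Real.log (1 - ‖b‖ ^ 2) + Real.log (1 + ⟪b, (x : E5)⟫_ℝ)) +
        Real.log (1 + ⟪b, (y : E5)⟫_ℝ) := by
    intro x
    filter_upwards [ae_ne x] with y hy
    have h1 : 0 < 1 - ⟪(x : E5), (y : E5)⟫_ℝ := by
      have h2 := dist_sq x y
      have h3 : 0 < dist y x := dist_pos.2 hy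
      have h4 : 0 < dist y x ^ 2 := by positivity
      linarith
    unfold ell
    rw [a3 x y, Real.log_div (mul_pos hD h1).ne' (mul_pos (a1 x) (a1 y)).ne',
      Real.log_mul hD.ne' h1.ne', Real.log_mul (a1 x).ne' (a1 y).ne']
    ring
  -- the potential
  have hpot : ∀ f, Dens f → ∀ x : S4, pot f (mob b x) = pot (pull b f) x +
      (-Real.log (1 - ‖b‖ ^ 2) + Real.log (1 + ⟪b, (x : E5)⟫_ℝ)) +
        ∫ y : S4, Real.log (1 + ⟪b, (y : E5)⟫_ℝ) * pull b f y ∂sig := by
    intro f hf x
    have hv := hpc f hf.1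
    have h1 := mom b hb (fun z => ell (mob b x) z * f z)
    have h2 : ∫ y, ell (mob b x) (mob b y) * f (mob b y) * Jac b y ∂sig =
        ∫ y, ell (mob b x) (mob b y) * pull b f y ∂sig := by
      refine integral_congr_ae (Eventually.of_forall fun y => ?_)
      change ell (mob b x) (mob b y) * f (mob b y) * Jac b y =
        ell (mob b x) (mob b y) * (f (mob b y) * Jac b y)
      ring
    have i1 : Integrable (fun y => ell x y * pull b f y) sig := integrable_mul_cont (hI x) hv
    have i2 : Integrable (fun y => (-Real.log (1 - ‖b‖ ^ 2) + Real.log (1 + ⟪b, (x : E5)⟫_ℝ)) *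
        pull b f y) sig := (integrable_cont hv).const_mul _
    have i3 : Integrable (fun y : S4 => Real.log (1 + ⟪b, (y : E5)⟫_ℝ) * pull b f y) sig :=
      integrable_cont (hclog.mul hv)
    have i12 : Integrable (fun y => ell x y * pull b f y +
        (-Real.log (1 - ‖b‖ ^ 2) + Real.log (1 + ⟪b, (x : E5)⟫_ℝ)) * pull b f y) sig := i1.add i2
    have h3 : (-Real.log (1 - ‖b‖ ^ 2) + Real.log (1 + ⟪b, (x : E5)⟫_ℝ)) =
        ∫ y, (-Real.log (1 - ‖b‖ ^ 2) + Real.log (1 + ⟪b, (x : E5)⟫_ℝ)) * pull b f y ∂sig := by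
      rw [integral_const_mul, (hdens f hf).2.2, mul_one]
    unfold pot
    rw [h3, ← integral_add i1 i2, ← integral_add i12 i3, ← h1, h2]
    refine integral_congr_ae ?_
    filter_upwards [hell x] with y hy
    rw [hy]
    ring
  refine ⟨hdens, ?_, ?_, ?_⟩
  · rintro W f ⟨hf, A, hA, hAf⟩
    refine ⟨hdens f hf, A * ((1 - ‖b‖ ^ 2) ^ 2)⁻¹ *
      Real.exp (4 * ∫ y : S4, Real.log (1 + ⟪b, (y : E5)⟫_ℝ) * pull b f y ∂sig), by positivity, ?_⟩
    intro x
    have hu := a1 x
    have e1 : Real.exp (4 * (-Real.log (1 - ‖b‖ ^ 2) + Real.log (1 + ⟪b, (x : E5)⟫_ℝ))) =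
        ((1 - ‖b‖ ^ 2) ^ 4)⁻¹ * (1 + ⟪b, (x : E5)⟫_ℝ) ^ 4 := by
      have : 4 * (-Real.log (1 - ‖b‖ ^ 2) + Real.log (1 + ⟪b, (x : E5)⟫_ℝ)) =
          -((4 : ℕ) * Real.log (1 - ‖b‖ ^ 2)) + (4 : ℕ) * Real.log (1 + ⟪b, (x : E5)⟫_ℝ) := by
        push_cast
        ring
      rw [this, Real.exp_add, Real.exp_neg, ← Real.log_pow, ← Real.log_pow,
        Real.exp_log (pow_pos hD 4), Real.exp_log (pow_pos hu 4)]
    have e2 : pull b f x = f (mob b x) * Jac b x := rfl
    rw [e2, hAf, hpot f hf x, mul_add, mul_add, Real.exp_add, Real.exp_add, e1]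
    unfold Jac
    field_simp
  · intro f g
    have h1 := mom b hb (fun z => g z * f z)
    rw [← h1]
    refine integral_congr_ae (Eventually.of_forall fun y => ?_)
    change g (mob b y) * (f (mob b y) * Jac b y) = g (mob b y) * f (mob b y) * Jac b y
    ring
  · intro f E hE _
    have hE' : MeasurableSet {x : S4 | mob b x ∈ E} := hcb.measurable hE
    rw [← integral_indicator hE', ← integral_indicator hE, ← mom b hb (E.indicator f)]
    refine integral_congr_ae (Eventually.of_forall fun y => ?_)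
    by_cases hy : mob b y ∈ E
    · change {x : S4 | mob b x ∈ E}.indicator (pull b f) y = E.indicator f (mob b y) * Jac b y
      rw [indicator_of_mem (show y ∈ {x : S4 | mob b x ∈ E} from hy), indicator_of_mem hy]
      rfl
    · change {x : S4 | mob b x ∈ E}.indicator (pull b f) y = E.indicator f (mob b y) * Jac b y
      rw [indicator_of_notMem (show y ∉ {x : S4 | mob b x ∈ E} from hy), indicator_of_notMem hy,
        zero_mul]

end Pool.Agent.PQP.H91
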