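import Pool.Agent.PQP.StmtsN

/-! Squad PQP, row ABD (helper91): bounds for the constant `A`. -/

set_option autoImplicit false

open scoped InnerProductSpace Topology ContDiff Manifold
open MeasureTheory Filter Set

noncomputable section

namespace Pool.Agent.PQP.H91

open Pool.Agent.Helper42_Paneitz Pool.Agent.Helper82_Vir Pool.Agent.FLX Pool.Agent.PQP

theorem measurableSet_cap (z : S4) (u : ℝ) : MeasurableSet (cap z u) := by
  refine IsClosed.measurableSet ?_
  exact isClosed_le (continuous_const.sub (continuous_const.inner continuous_subtype_val))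
    continuous_const

theorem cap_mono (z : S4) {u v : ℝ} (h : u ≤ v) : cap z u ⊆ cap z v := fun _ hx => le_trans hx h

theorem abd (psn : PsnStmt) (vlo : VloStmt) (hpot : PotStmt) : AbdStmt := by
  intro ψ N hψ
  obtain ⟨_, _, C, _, _, _, hC, _, _, hψC⟩ := psn ψ N hψ
  obtain ⟨c, hc, hvlo⟩ := vlo
  obtain ⟨_, _, hP⟩ := hpot
  refine ⟨16 * Real.exp C / c, c * Real.exp (-C) / 16, by positivity, by positivity, ?_⟩
  intro t A f ht hf hA hfA
  have ht0 : 0 < t := by linarith
  have hlow : ∀ x ∈ cap N (1 / t), A * Real.exp (-C) / 16 ≤ f x := by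
    intro x hx
    have h1 : t * ψ x ≤ C := by
      have h2 := hψC x
      have h3 : (1 - ⟪(N : E5), (x : E5)⟫_ℝ) ≤ 1 / t := hx
      calc t * ψ x ≤ t * (C * (1 - ⟪(N : E5), (x : E5)⟫_ℝ)) := mul_le_mul_of_nonneg_left h2 ht0.le
        _ ≤ t * (C * (1 / t)) := by gcongr
        _ = C := by field_simp
    have h4 : Real.exp (-C) ≤ Wt ψ t x := Real.exp_le_exp.2 (by linarith)
    have h5 : (1 : ℝ) / 16 ≤ Real.exp (4 * pot f x) := by
      have h6 := (hP f hf.1).2.2 hf x
      have h7 : (1 : ℝ) / 16 = Real.exp (4 * -Real.log 2) := by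
        have : 4 * -Real.log 2 = -((4 : ℕ) * Real.log 2) := by push_cast; ring
        rw [this, ← Real.log_pow, Real.exp_neg, Real.exp_log (by norm_num)]
        norm_num
      rw [h7]
      exact Real.exp_le_exp.2 (by linarith)
    rw [hfA x]
    calc A * Real.exp (-C) / 16 = A * Real.exp (-C) * (1 / 16) := by ring
      _ ≤ A * Wt ψ t x * Real.exp (4 * pot f x) := by
          refine mul_le_mul (mul_le_mul_of_nonneg_left h4 hA.le) h5 (by norm_num) ?_
          exact mul_nonneg hA.le (Real.exp_pos _).le
  have hmeas := measurableSet_cap N (1 / t)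
  have hint := integrable_cont hf.1
  obtain ⟨hv1, hv2⟩ := hvlo N (1 / t) (by positivity) (by
    rw [div_le_one ht0]
    exact ht)
  constructor
  · have h1 : A * Real.exp (-C) / 16 * ∫ _x in cap N (1 / t), (1 : ℝ) ∂sig ≤
        ∫ x in cap N (1 / t), f x ∂sig := by
      rw [← integral_const_mul]
      refine setIntegral_mono_on ?_ hint.integrableOn hmeas fun x hx => ?_
      · exact ((integrable_const _).const_mul _).integrableOn
      · rw [mul_one]
        exact hlow x hx
    have h2 : ∫ x in cap N (1 / t), f x ∂sig ≤ 1 := by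
      refine le_trans ?_ (le_of_eq hf.2.2)
      exact setIntegral_le_integral hint (Eventually.of_forall fun x => (hf.2.1 x).le)
    have h3 : A * Real.exp (-C) / 16 * (c * (1 / t) ^ 2) ≤ 1 :=
      (mul_le_mul_of_nonneg_left hv1 (by positivity)).trans (h1.trans h2)
    have h4 : Real.exp (-C) = (Real.exp C)⁻¹ := Real.exp_neg C
    rw [h4] at h3
    have hE := Real.exp_pos C
    have h5 : A * (Real.exp C)⁻¹ / 16 * (c * (1 / t) ^ 2) = A * c / (16 * Real.exp C * t ^ 2) := by
      field_simp
    rw [h5, div_le_one (by positivity)] at h3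
    rw [div_mul_eq_mul_div, le_div_iff₀ hc]
    exact h3
  · intro ρ hρ
    have hci : Continuous fun x : S4 => (1 - ⟪(N : E5), (x : E5)⟫_ℝ) * f x :=
      (continuous_const.sub (continuous_const.inner continuous_subtype_val)).mul hf.1
    have hnn : ∀ x : S4, 0 ≤ 1 - ⟪(N : E5), (x : E5)⟫_ℝ := fun x => by
      have := inner_le_one N x
      linarith
    have h1 : A * Real.exp (-C) / 16 * ∫ x in cap N (1 / t), (1 - ⟪(N : E5), (x : E5)⟫_ℝ) ∂sig ≤
        ∫ x in cap N (1 / t), (1 - ⟪(N : E5), (x : E5)⟫_ℝ) * f x ∂sig := by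
      rw [← integral_const_mul]
      refine setIntegral_mono_on ?_ (integrable_cont hci).integrableOn hmeas fun x hx => ?_
      · exact (integrable_cont (continuous_const.mul
          (continuous_const.sub (continuous_const.inner continuous_subtype_val)))).integrableOn
      · rw [mul_comm]
        exact mul_le_mul_of_nonneg_left (hlow x hx) (hnn x)
    have h2 : ∫ x in cap N (1 / t), (1 - ⟪(N : E5), (x : E5)⟫_ℝ) * f x ∂sig ≤ GN N ρ f := by
      unfold GN
      refine setIntegral_mono_set (integrable_cont hci).integrableOn ?_ ?_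
      · exact Eventually.of_forall fun x => mul_nonneg (hnn x) (hf.2.1 x).le
      · exact Eventually.of_forall fun x hx => cap_mono N hρ hx
    have h3 := (mul_le_mul_of_nonneg_left hv2
      (by positivity : 0 ≤ A * Real.exp (-C) / 16)).trans (h1.trans h2)
    refine le_trans (le_of_eq ?_) h3
    field_simp

end Pool.Agent.PQP.H91
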